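import Pool.Agent.Y473.MC.Main

/-!
# A mapping class group orbit closure which meets the unitary and the quasi-Fuchsian characters

For every genus `g ≥ 2` there is a representation `ρ : π₁(Σ_g) → SL(2,ℂ)` such that the closure of
the mapping class group orbit of its character contains a unitary character and a point of the
closure of the set of quasi-Fuchsian characters.

All definitions used in the statement are in `Pool/Agent/Y473/MC/Defs.lean`.
-/

set_option autoImplicit false

namespace Pool.Agent.Results.MP_62a77c_gt.OrbitClosure

open Pool.Agent.Y473.MC

theorem result (g : ℕ) (hg : 2 ≤ g) : ∃ ρ : Rep g,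
    (closure (modOrbit ρ) ∩ unitaryChars g).Nonempty ∧
    (closure (modOrbit ρ) ∩ closure (quasiFuchsianChars g)).Nonempty :=
  main g hg

end Pool.Agent.Results.MP_62a77c_gt.OrbitClosure
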